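import Mathlib

/-!
The deterministic part: a robust form of the hat game and its recursive construction.
-/

open Finset Classical

namespace Pool.Agent.P.MP_665a1e_co

variable {V : Type*}

/-- The guess of each vertex depends only on the colours of its neighbours. -/
def Loc (G : SimpleGraph V) (f : V → (V → ℕ) → ℕ) : Prop :=
  ∀ v c c', (∀ u, G.Adj v u → c u = c' u) → f v c = f v c'

/-- Robust win: for every small exceptional set, if the other vertices of `W` have colours
below `k`, one of them guesses right. -/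
def RW (G : SimpleGraph V) (W : Finset V) (k T m : ℕ) : Prop :=
  ∃ f, Loc G f ∧ ∀ (c : V → ℕ) (Bad : Finset V), T * Bad.card ≤ m →
    (∀ v ∈ W, v ∉ Bad → c v < k) → ∃ v ∈ W, v ∉ Bad ∧ f v c = c v

/-- Large subsets of `A` dominate almost all of `B`. -/
def Dom (H : SimpleGraph V) (A B : Finset V) (d e m : ℕ) : Prop :=
  ∀ Y ⊆ A, m ≤ d * Y.card → e * (B.filter fun v => ∀ y ∈ Y, ¬ H.Adj v y).card ≤ m

/-- Small subsets of `A` have few neighbours in `B`. -/
def Small (H : SimpleGraph V) (A B : Finset V) (b e m : ℕ) : Prop :=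
  ∀ Z ⊆ A, b * Z.card ≤ m → e * (B.filter fun v => ∃ z ∈ Z, H.Adj v z).card ≤ m

/-- A subgraph with the three properties. -/
def Link (G : SimpleGraph V) (A B : Finset V) (d b e b' e' m : ℕ) : Prop :=
  ∃ H ≤ G, Dom H A B d e m ∧ Small H A B b e m ∧ Small H B A b' e' m

lemma Link.mono {G G' : SimpleGraph V} (h : G ≤ G') {A B : Finset V} {d b e b' e' m : ℕ}
    (hL : Link G A B d b e b' e' m) : Link G' A B d b e b' e' m := by
  obtain ⟨H, hH, h3⟩ := hL
  exact ⟨H, hH.trans h, h3⟩

lemma RW_zero (G : SimpleGraph V) (W : Finset V) (m : ℕ) (hm : 0 < m) (hW : W.card = m) :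
    RW G W 0 2 m := by
  refine ⟨fun _ _ => 0, fun _ _ _ _ => rfl, fun c Bad hB hc => ?_⟩
  exfalso
  have hlt : Bad.card < W.card := by omega
  obtain ⟨v, hv, hvB⟩ := Finset.exists_mem_notMem_of_card_lt_card hlt
  exact Nat.not_lt_zero _ (hc v hv hvB)

lemma exists_cross (P : ℕ → Prop) (n : ℕ) (h0 : P 0) (hn : ¬ P (n + 1)) :
    ∃ t ≤ n, P t ∧ ¬ P (t + 1) := by
  induction n with
  | zero => exact ⟨0, le_rfl, h0, hn⟩
  | succ n ih =>
    by_cases h : P (n + 1)
    · exact ⟨n + 1, le_rfl, h, hn⟩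
    · obtain ⟨t, ht, h'⟩ := ih h
      exact ⟨t, by omega, h'⟩

theorem RW_step (G : SimpleGraph V) (W A : Finset V) (Wt : ℕ → Finset V) (blk : V → ℕ)
    (k T' T K m : ℕ) (hm : 0 < m) (hK : 2 ≤ K)
    (hA : A ⊆ W) (hAcard : A.card = m) (hWt : ∀ t ≤ k, Wt t ⊆ W)
    (hdisj : ∀ t ≤ k, Disjoint A (Wt t)) (hblk : ∀ t ≤ k, ∀ v ∈ Wt t, blk v = t)
    (hRW : ∀ t ≤ k, RW G (Wt t) k T' m)
    (hL : ∀ t ≤ k, Link G A (Wt t) (4 * K ^ t) (K ^ (t + 1)) (3 * T') T
      (4 * (k + 1) * K ^ (k + 1)) m)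
    (hT1 : 3 * T' ≤ T) (hT2 : 4 * K ^ (k + 1) ≤ T) : RW G W (k + 1) T m := by
  have hRW' : ∀ t, ∃ f : V → (V → ℕ) → ℕ, t ≤ k → (Loc G f ∧
      ∀ (c : V → ℕ) (Bad : Finset V), T' * Bad.card ≤ m →
        (∀ v ∈ Wt t, v ∉ Bad → c v < k) → ∃ v ∈ Wt t, v ∉ Bad ∧ f v c = c v) := by
    intro t
    by_cases ht : t ≤ k
    · obtain ⟨f, hf⟩ := hRW t ht
      exact ⟨f, fun _ => hf⟩
    · exact ⟨fun _ _ => 0, fun h => absurd h ht⟩
  choose F hF using hRW'
  have hL' : ∀ t, ∃ H : SimpleGraph V, H ≤ G ∧ (t ≤ k →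
      Dom H A (Wt t) (4 * K ^ t) (3 * T') m ∧ Small H A (Wt t) (K ^ (t + 1)) (3 * T') m ∧
        Small H (Wt t) A T (4 * (k + 1) * K ^ (k + 1)) m) := by
    intro t
    by_cases ht : t ≤ k
    · obtain ⟨H, hH, h3⟩ := hL t ht
      exact ⟨H, hH, fun _ => h3⟩
    · exact ⟨⊥, bot_le, fun h => absurd h ht⟩
  choose H hHG hH using hL'
  -- the set of free labels of a connector
  let U : V → (V → ℕ) → Finset ℕ := fun a c =>
    (Finset.range (k + 1)).filter fun t => ∀ u ∈ Wt t, (H t).Adj a u → c u ≠ k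
  let f : V → (V → ℕ) → ℕ := fun v c =>
    if v ∈ A then (U v c).sup id
    else if blk v ≤ k then
      (if ∃ a ∈ A, (H (blk v)).Adj v a ∧ c a = blk v then k else F (blk v) v c)
    else 0
  refine ⟨f, ?_, ?_⟩
  · intro v c c' hcc
    have hU : U v c = U v c' := by
      refine Finset.filter_congr fun t _ => ?_
      refine forall_congr' fun u => forall_congr' fun _ => forall_congr' fun hadj => ?_
      rw [hcc u (hHG t hadj)]
    have hE : (∃ a ∈ A, (H (blk v)).Adj v a ∧ c a = blk v) ↔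
        (∃ a ∈ A, (H (blk v)).Adj v a ∧ c' a = blk v) := by
      refine exists_congr fun a => and_congr_right fun _ => and_congr_right fun hadj => ?_
      rw [hcc a (hHG _ hadj)]
    simp only [f]
    by_cases hvA : v ∈ A
    · rw [if_pos hvA, if_pos hvA, hU]
    · rw [if_neg hvA, if_neg hvA]
      by_cases hb : blk v ≤ k
      · rw [if_pos hb, if_pos hb]
        by_cases hx : ∃ a ∈ A, (H (blk v)).Adj v a ∧ c a = blk v
        · rw [if_pos hx, if_pos (hE.1 hx)]
        · rw [if_neg hx, if_neg (fun h => hx (hE.2 h))]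
          exact (hF _ hb).1 v c c' hcc
      · rw [if_neg hb, if_neg hb]
  · intro c Bad hBad hc
    by_contra hcon
    have hwrong : ∀ v ∈ W, v ∉ Bad → f v c ≠ c v := fun v hv hvB h => hcon ⟨v, hv, hvB, h⟩
    have hfA : ∀ a ∈ A, f a c = (U a c).sup id := fun a ha => by simp only [f, if_pos ha]
    have hfW : ∀ t ≤ k, ∀ v ∈ Wt t, f v c =
        if ∃ a ∈ A, (H t).Adj v a ∧ c a = t then k else F t v c := by
      intro t ht v hv
      have hvA : v ∉ A := fun h => Finset.disjoint_left.1 (hdisj t ht) h hv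
      simp only [f, if_neg hvA, hblk t ht v hv, if_pos ht]
    -- typical connectors
    let Typ : Finset V := A.filter fun a => a ∉ Bad ∧ ∀ t ≤ k, ∀ u ∈ Wt t ∩ Bad, ¬ (H t).Adj a u
    have hTypA : Typ ⊆ A := Finset.filter_subset _ _
    have hKpos : 0 < K := by omega
    have hatyp : 2 * K ^ (k + 1) * (A \ Typ).card ≤ m := by
      have hsub : A \ Typ ⊆ Bad ∪ (Finset.range (k + 1)).biUnion
          (fun t => A.filter fun a => ∃ u ∈ Wt t ∩ Bad, (H t).Adj a u) := by
        intro a ha
        obtain ⟨haA, haT⟩ := Finset.mem_sdiff.1 ha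
        by_cases hB : a ∈ Bad
        · exact Finset.mem_union_left _ hB
        · refine Finset.mem_union_right _ ?_
          by_contra hno
          refine haT (Finset.mem_filter.2 ⟨haA, hB, fun t ht u hu hadj => hno ?_⟩)
          exact Finset.mem_biUnion.2 ⟨t, Finset.mem_range.2 (by omega),
            Finset.mem_filter.2 ⟨haA, u, hu, hadj⟩⟩
      have h1 := (Finset.card_le_card hsub).trans (Finset.card_union_le _ _)
      have h2 := Finset.card_biUnion_le (s := Finset.range (k + 1))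
        (t := fun t => A.filter fun a => ∃ u ∈ Wt t ∩ Bad, (H t).Adj a u)
      have h3 : ∀ t ∈ Finset.range (k + 1), 4 * (k + 1) * K ^ (k + 1) *
          (A.filter fun a => ∃ u ∈ Wt t ∩ Bad, (H t).Adj a u).card ≤ m := by
        intro t ht
        have ht' : t ≤ k := by have := Finset.mem_range.1 ht; omega
        refine (hH t ht').2.2 (Wt t ∩ Bad) Finset.inter_subset_left ?_
        exact (Nat.mul_le_mul_left _ (Finset.card_le_card Finset.inter_subset_right)).trans hBad
      have h4 := Finset.sum_le_sum h3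
      rw [← Finset.mul_sum, Finset.sum_const, Finset.card_range, smul_eq_mul] at h4
      set s := ∑ t ∈ Finset.range (k + 1),
        (A.filter fun a => ∃ u ∈ Wt t ∩ Bad, (H t).Adj a u).card with hs
      have h5 : 4 * K ^ (k + 1) * s ≤ m := by
        have : (k + 1) * (4 * K ^ (k + 1) * s) ≤ (k + 1) * m := by
          calc (k + 1) * (4 * K ^ (k + 1) * s) = 4 * (k + 1) * K ^ (k + 1) * s := by ring
            _ ≤ _ := h4
        exact Nat.le_of_mul_le_mul_left this (by omega)
      have h6 : 4 * K ^ (k + 1) * Bad.card ≤ m := (Nat.mul_le_mul_right _ hT2).trans hBad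
      have h7 : (A \ Typ).card ≤ Bad.card + s := by omega
      have h8 := Nat.mul_le_mul_left (4 * K ^ (k + 1)) h7
      nlinarith
    have hTyp : ∀ a ∈ Typ, c a < f a c ∧ f a c ∈ U a c := by
      intro a ha
      obtain ⟨haA, haB, hnb⟩ := Finset.mem_filter.1 ha
      have hca : c a < k + 1 := hc a (hA haA) haB
      have hmem : c a ∈ U a c := by
        refine Finset.mem_filter.2 ⟨Finset.mem_range.2 hca, fun u hu hadj hcu => ?_⟩
        have hle : c a ≤ k := by omega
        have huB : u ∉ Bad := fun h => hnb _ hle u (Finset.mem_inter.2 ⟨hu, h⟩) hadj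
        refine hwrong u (hWt _ hle hu) huB ?_
        rw [hfW _ hle u hu, if_pos ⟨a, haA, hadj.symm, rfl⟩, hcu]
      have hle : c a ≤ f a c := by
        rw [hfA a haA]
        exact Finset.le_sup (f := id) hmem
      refine ⟨lt_of_le_of_ne hle (hwrong a (hA haA) haB).symm, ?_⟩
      rw [hfA a haA]
      obtain ⟨i, hi, hi'⟩ := Finset.exists_mem_eq_sup (U a c) ⟨_, hmem⟩ id
      rw [hi']
      exact hi
    let S : ℕ → Finset V := fun t => Typ.filter fun a => t ≤ f a c
    have hKk : 1 ≤ K ^ (k + 1) := Nat.one_le_pow _ _ hKpos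
    have hS0 : m ≤ 2 * K ^ 0 * (S 0).card := by
      have e1 : S 0 = Typ := Finset.filter_true_of_mem fun _ _ => Nat.zero_le _
      have e2 : (A \ Typ).card + Typ.card = A.card := Finset.card_sdiff_add_card_eq_card hTypA
      rw [e1]
      nlinarith
    have hSk : ¬ m ≤ 2 * K ^ (k + 1) * (S (k + 1)).card := by
      have e1 : S (k + 1) = ∅ := by
        refine Finset.filter_false_of_mem fun a ha => ?_
        have := Finset.mem_range.1 (Finset.mem_filter.1 (hTyp a ha).2).1
        omega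
      rw [e1]
      simp
      omega
    obtain ⟨t, ht, ht1, ht2⟩ :=
      exists_cross (fun t => m ≤ 2 * K ^ t * (S t).card) k hS0 hSk
    have ht2' : 2 * K ^ (t + 1) * (S (t + 1)).card < m := Nat.lt_of_not_le ht2
    let Y : Finset V := Typ.filter fun a => f a c = t
    let Z : Finset V := A.filter fun a => c a = t
    have hY : m ≤ 4 * K ^ t * Y.card := by
      have hsub : S t ⊆ Y ∪ S (t + 1) := by
        intro a ha
        obtain ⟨haT, hle⟩ := Finset.mem_filter.1 ha
        rcases Nat.eq_or_lt_of_le hle with h | h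
        · exact Finset.mem_union_left _ (Finset.mem_filter.2 ⟨haT, h.symm⟩)
        · exact Finset.mem_union_right _ (Finset.mem_filter.2 ⟨haT, h⟩)
      have h1 := (Finset.card_le_card hsub).trans (Finset.card_union_le _ _)
      have h2 := Nat.mul_le_mul_left (4 * K ^ t) h1
      have h3 : 4 * K ^ t * (S (t + 1)).card ≤ 2 * K ^ (t + 1) * (S (t + 1)).card := by
        refine Nat.mul_le_mul_right _ ?_
        rw [pow_succ]
        nlinarith [Nat.zero_le (K ^ t)]
      nlinarith
    have hZ : K ^ (t + 1) * Z.card ≤ m := by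
      have hsub : Z ⊆ (A \ Typ) ∪ S (t + 1) := by
        intro a ha
        obtain ⟨haA, hca⟩ := Finset.mem_filter.1 ha
        by_cases haT : a ∈ Typ
        · refine Finset.mem_union_right _ (Finset.mem_filter.2 ⟨haT, ?_⟩)
          have := (hTyp a haT).1
          omega
        · exact Finset.mem_union_left _ (Finset.mem_sdiff.2 ⟨haA, haT⟩)
      have h1 := (Finset.card_le_card hsub).trans (Finset.card_union_le _ _)
      have h2 := Nat.mul_le_mul_left (2 * K ^ (t + 1)) h1
      have h3 : K ^ (t + 1) ≤ K ^ (k + 1) := Nat.pow_le_pow_right hKpos (by omega)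
      have h4 : 2 * K ^ (t + 1) * (A \ Typ).card ≤ 2 * K ^ (k + 1) * (A \ Typ).card :=
        Nat.mul_le_mul_right _ (by omega)
      nlinarith
    have hD := (hH t ht).1 Y ((Finset.filter_subset _ _).trans hTypA) hY
    have hSm := (hH t ht).2.1 Z (Finset.filter_subset _ _) hZ
    set N1 := (Wt t).filter fun v => ∀ y ∈ Y, ¬ (H t).Adj v y with hN1
    set N2 := (Wt t).filter fun v => ∃ z ∈ Z, (H t).Adj v z with hN2
    have hB' : T' * (Bad ∪ N1 ∪ N2).card ≤ m := by
      have h1 : (Bad ∪ N1 ∪ N2).card ≤ Bad.card + N1.card + N2.card :=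
        (Finset.card_union_le _ _).trans (Nat.add_le_add_right (Finset.card_union_le _ _) _)
      have h2 := Nat.mul_le_mul_left (3 * T') h1
      have h3 : 3 * T' * Bad.card ≤ m := (Nat.mul_le_mul_right _ hT1).trans hBad
      nlinarith
    obtain ⟨v, hv, hvB, hfv⟩ := (hF t ht).2 c (Bad ∪ N1 ∪ N2) hB' (by
      intro v hv hvB
      simp only [Finset.mem_union, not_or] at hvB
      have h1 := hc v (hWt t ht hv) hvB.1.1
      have h2 : c v ≠ k := by
        have h3 := hvB.1.2
        rw [hN1, Finset.mem_filter] at h3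
        have h4 : ∃ y ∈ Y, (H t).Adj v y := by
          by_contra h5
          exact h3 ⟨hv, fun y hy hadj => h5 ⟨y, hy, hadj⟩⟩
        obtain ⟨y, hy, hadj⟩ := h4
        obtain ⟨hyT, hyt⟩ := Finset.mem_filter.1 hy
        have h6 := (hTyp y hyT).2
        rw [hyt] at h6
        exact (Finset.mem_filter.1 h6).2 v hv hadj.symm
      omega)
    simp only [Finset.mem_union, not_or] at hvB
    refine hwrong v (hWt t ht hv) hvB.1.1 ?_
    rw [hfW t ht v hv, if_neg, hfv]
    rintro ⟨a, haA, hadj, hca⟩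
    refine hvB.2 ?_
    rw [hN2, Finset.mem_filter]
    exact ⟨hv, a, Finset.mem_filter.2 ⟨haA, hca⟩, hadj⟩

end Pool.Agent.P.MP_665a1e_co
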