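import Pool.Agent.P.MP_665a1e_co.Prob
import Pool.Agent.P.MP_665a1e_co.Det

/-!
The probabilistic part: the robust game is won with high probability.
-/

open Finset Classical

namespace Pool.Agent.P.MP_665a1e_co

section

variable {V : Type*} [Fintype V]

lemma union_pairs {w : ℝ} (h0 : 0 ≤ w) (h1 : w ≤ 1) (A B : Finset V) (N m : ℕ)
    (hN : A.card + B.card ≤ N * m) (R : Finset V → Finset V → Prop)
    (P : Finset V → Finset V → SimpleGraph V → Prop) (Q : SimpleGraph V → Prop)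
    (hQ : ∀ G, Q G → ∃ Y ⊆ A, ∃ X ⊆ B, R Y X ∧ P Y X G)
    (hP : ∀ Y ⊆ A, ∀ X ⊆ B, R Y X → prG w (P Y X) ≤ (1 / 2) ^ ((N + 1) * m)) :
    prG w Q ≤ (1 / 2) ^ m := by
  set I := (A.powerset ×ˢ B.powerset).filter fun YX => R YX.1 YX.2 with hI
  have s1 : prG w Q ≤ prG w (fun G => ∃ i ∈ I, P i.1 i.2 G) := by
    refine prG_le_of_imp h0 h1 fun G h => ?_
    obtain ⟨Y, hY, X, hX, hR, hPG⟩ := hQ G h
    exact ⟨(Y, X), Finset.mem_filter.2 ⟨Finset.mem_product.2
      ⟨Finset.mem_powerset.2 hY, Finset.mem_powerset.2 hX⟩, hR⟩, hPG⟩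
  have s2 := prG_exists h0 h1 I (fun i G => P i.1 i.2 G)
  have s3 : ∑ i ∈ I, prG w (fun G => P i.1 i.2 G) ≤ ∑ _i ∈ I, ((1 / 2 : ℝ)) ^ ((N + 1) * m) := by
    refine Finset.sum_le_sum fun i hi => ?_
    obtain ⟨hi1, hi2⟩ := Finset.mem_filter.1 hi
    obtain ⟨hi3, hi4⟩ := Finset.mem_product.1 hi1
    exact hP _ (Finset.mem_powerset.1 hi3) _ (Finset.mem_powerset.1 hi4) hi2
  rw [Finset.sum_const, nsmul_eq_mul] at s3
  have s4 : I.card ≤ 2 ^ (N * m) := by
    refine (Finset.card_filter_le _ _).trans ?_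
    rw [Finset.card_product, Finset.card_powerset, Finset.card_powerset, ← pow_add]
    exact Nat.pow_le_pow_right (by norm_num) hN
  have s5 : (I.card : ℝ) ≤ 2 ^ (N * m) := by exact_mod_cast s4
  refine s1.trans (s2.trans (s3.trans ?_))
  calc (I.card : ℝ) * (1 / 2) ^ ((N + 1) * m) ≤ 2 ^ (N * m) * (1 / 2) ^ ((N + 1) * m) :=
        mul_le_mul_of_nonneg_right s5 (by positivity)
    _ = (1 / 2) ^ m := by
        rw [add_mul, one_mul, pow_add, ← mul_assoc, ← mul_pow]
        norm_num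

lemma dom_fail {w : ℝ} (h0 : 0 ≤ w) (h1 : w ≤ 1) (A B : Finset V) (hAB : Disjoint A B)
    (N m d e : ℕ) (hm : 0 < m) (hN : A.card + B.card ≤ N * m)
    (hw : ((N + 1) * d * e : ℝ) ≤ w * m) :
    prG w (fun G => ¬ Dom G A B d e m) ≤ (1 / 2) ^ m := by
  refine union_pairs h0 h1 A B N m hN (fun Y X => m ≤ d * Y.card ∧ m < e * X.card)
    (fun Y X G => ∀ x ∈ X, ∀ y ∈ Y, ¬ G.Adj x y) _ ?_ ?_
  · intro G h
    unfold Dom at h
    push Not at h
    obtain ⟨Y, hY, h2, h3⟩ := h
    refine ⟨Y, hY, _, ?_, ⟨h2, h3⟩, fun x hx => ?_⟩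
    · intro x hx
      simp only [Finset.mem_filter] at hx
      exact hx.1
    · simp only [Finset.mem_filter] at hx
      exact hx.2
  · intro Y hY X hX ⟨h2, h3⟩
    have hXY : Disjoint X Y := Finset.disjoint_of_subset_left hX
      (Finset.disjoint_of_subset_right hY hAB.symm)
    refine (prG_noedge h0 h1 X Y hXY).trans ?_
    have hd : 0 < d := by
      rcases Nat.eq_zero_or_pos d with h | h
      · subst h; omega
      · exact h
    have he : 0 < e := by
      rcases Nat.eq_zero_or_pos e with h | h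
      · subst h; omega
      · exact h
    have h2' : (m : ℝ) ≤ d * Y.card := by exact_mod_cast h2
    have h3' : (m : ℝ) ≤ e * X.card := by exact_mod_cast h3.le
    have hdr : (0 : ℝ) < d := by exact_mod_cast hd
    have her : (0 : ℝ) < e := by exact_mod_cast he
    have hmr : (0 : ℝ) < m := by exact_mod_cast hm
    have key : ((N + 1) * m : ℝ) ≤ w * (X.card * Y.card) := by
      have a1 : (m : ℝ) * m ≤ (d * Y.card) * (e * X.card) :=
        mul_le_mul h2' h3' hmr.le (by positivity)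
      have a2 : w * (m * m) ≤ w * ((d * Y.card) * (e * X.card)) :=
        mul_le_mul_of_nonneg_left a1 h0
      have a3 : ((N + 1) * d * e : ℝ) * m ≤ w * m * m := mul_le_mul_of_nonneg_right hw hmr.le
      have a4 : (d * e : ℝ) * ((N + 1) * m) ≤ (d * e) * (w * (X.card * Y.card)) := by
        nlinarith
      exact le_of_mul_le_mul_left a4 (by positivity)
    have e1 : 1 - w ≤ Real.exp (-w) := by
      have := Real.add_one_le_exp (-w)
      linarith
    have e2 : Real.exp (-1) ≤ 1 / 2 := by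
      rw [Real.exp_neg, one_div]
      refine inv_anti₀ (by norm_num) ?_
      have := Real.add_one_le_exp (1 : ℝ)
      linarith
    calc (1 - w) ^ (X.card * Y.card) ≤ Real.exp (-w) ^ (X.card * Y.card) :=
          pow_le_pow_left₀ (by linarith) e1 _
      _ = Real.exp (-(w * (X.card * Y.card))) := by
          rw [← Real.exp_nat_mul]; congr 1; push_cast; ring
      _ ≤ Real.exp (-((N + 1) * m)) := Real.exp_le_exp.2 (by linarith)
      _ = Real.exp (-1) ^ ((N + 1) * m) := by
          rw [← Real.exp_nat_mul]; congr 1; push_cast; ring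
      _ ≤ (1 / 2) ^ ((N + 1) * m) := pow_le_pow_left₀ (Real.exp_pos _).le e2 _

lemma small_fail {w : ℝ} (h0 : 0 ≤ w) (h1 : w ≤ 1) (A B : Finset V) (hAB : Disjoint A B)
    (N m b e : ℕ) (hm : 0 < m) (hN : A.card + B.card ≤ N * m)
    (hw : w * m * 2 ^ ((N + 1) * e) ≤ b) :
    prG w (fun G => ¬ Small G A B b e m) ≤ (1 / 2) ^ m := by
  refine union_pairs h0 h1 A B N m hN (fun Z X => b * Z.card ≤ m ∧ m < e * X.card)
    (fun Z X G => ∀ x ∈ X, ∃ z ∈ Z, G.Adj x z) _ ?_ ?_
  · intro G h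
    unfold Small at h
    push Not at h
    obtain ⟨Y, hY, h2, h3⟩ := h
    refine ⟨Y, hY, _, Finset.filter_subset _ _, ⟨h2, h3⟩, fun x hx => ?_⟩
    exact (Finset.mem_filter.1 hx).2
  · intro Z hZ X hX ⟨h2, h3⟩
    have hXZ : Disjoint X Z := Finset.disjoint_of_subset_left hX
      (Finset.disjoint_of_subset_right hZ hAB.symm)
    refine (prG_dom h0 h1 X Z hXZ).trans ?_
    have h2' : (b : ℝ) * Z.card ≤ m := by exact_mod_cast h2
    have hmr : (0 : ℝ) < m := by exact_mod_cast hm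
    have key : (Z.card : ℝ) * w ≤ (1 / 2) ^ ((N + 1) * e) := by
      have a1 : w * m * 2 ^ ((N + 1) * e) * Z.card ≤ (b : ℝ) * Z.card :=
        mul_le_mul_of_nonneg_right hw (by positivity)
      have a2 : (m : ℝ) * ((Z.card * w) * 2 ^ ((N + 1) * e)) ≤ m * 1 := by nlinarith
      have a3 := le_of_mul_le_mul_left a2 hmr
      rw [one_div, inv_pow, ← one_div, le_div_iff₀ (by positivity)]
      exact a3
    calc ((Z.card : ℝ) * w) ^ X.card ≤ ((1 / 2) ^ ((N + 1) * e)) ^ X.card :=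
          pow_le_pow_left₀ (by positivity) key _
      _ = (1 / 2) ^ ((N + 1) * (e * X.card)) := by rw [← pow_mul, mul_assoc]
      _ ≤ (1 / 2) ^ ((N + 1) * m) :=
          pow_le_pow_of_le_one (by norm_num) (by norm_num) (Nat.mul_le_mul_left _ h3.le)

lemma link_fail {p : ℝ} (h1 : p ≤ 1) (A B : Finset V) (hAB : Disjoint A B)
    (N m d b e b' e' : ℕ) (hm : 0 < m) (hN : A.card + B.card ≤ N * m)
    (hp : (((N + 1) * d * e : ℕ) : ℝ) ≤ p * m)
    (hb : (N + 1) * d * e * 2 ^ ((N + 1) * e) ≤ b)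
    (hb' : (N + 1) * d * e * 2 ^ ((N + 1) * e') ≤ b') :
    prG p (fun G => ¬ Link G A B d b e b' e' m) ≤ 3 * (1 / 2) ^ m := by
  have hmr : (0 : ℝ) < m := by exact_mod_cast hm
  set w : ℝ := (((N + 1) * d * e : ℕ) : ℝ) / m with hw
  have hw0 : 0 ≤ w := by positivity
  have hwp : w ≤ p := by rw [hw, div_le_iff₀ hmr]; exact hp
  have hw1 : w ≤ 1 := hwp.trans h1
  have hwm : w * m = (((N + 1) * d * e : ℕ) : ℝ) := by rw [hw]; field_simp
  have s1 := prG_mono_p hw0 hwp h1 (fun G : SimpleGraph V => Link G A B d b e b' e' m)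
    (fun G G' h hL => hL.mono h)
  have s2 : prG w (fun G => ¬ Link G A B d b e b' e' m) ≤
      prG w (fun G => ¬ Dom G A B d e m ∨ (¬ Small G A B b e m ∨ ¬ Small G B A b' e' m)) := by
    refine prG_le_of_imp hw0 hw1 fun G h => ?_
    by_contra hc
    push Not at hc
    exact h ⟨G, le_rfl, hc⟩
  have s3 := prG_or hw0 hw1 (fun G : SimpleGraph V => ¬ Dom G A B d e m)
    (fun G => ¬ Small G A B b e m ∨ ¬ Small G B A b' e' m)
  have s4 := prG_or hw0 hw1 (fun G : SimpleGraph V => ¬ Small G A B b e m)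
    (fun G => ¬ Small G B A b' e' m)
  have t1 := dom_fail hw0 hw1 A B hAB N m d e hm hN (by rw [hwm]; push_cast; exact le_rfl)
  have t2 := small_fail hw0 hw1 A B hAB N m b e hm hN (by rw [hwm]; exact_mod_cast hb)
  have t3 := small_fail hw0 hw1 B A hAB.symm N m b' e' hm (by omega)
    (by rw [hwm]; exact_mod_cast hb')
  rw [prG_not] at s2 ⊢
  linarith

end

lemma split {V : Type*} (m s : ℕ) : ∀ (r : ℕ) (W : Finset V), W.card = m + r * s →
    ∃ (A : Finset V) (Wt : ℕ → Finset V) (blk : V → ℕ), A ⊆ W ∧ A.card = m ∧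
      ∀ t < r, Wt t ⊆ W ∧ (Wt t).card = s ∧ Disjoint A (Wt t) ∧ ∀ v ∈ Wt t, blk v = t := by
  intro r
  induction r with
  | zero =>
    intro W hW
    exact ⟨W, fun _ => ∅, fun _ => 0, subset_rfl, by simpa using hW, fun t ht => by omega⟩
  | succ r ih =>
    intro W hW
    obtain ⟨B, hBW, hB⟩ := Finset.exists_subset_card_eq (s := W) (n := s) (by nlinarith)
    obtain ⟨A, Wt, blk, hA, hAc, hWt⟩ := ih (W \ B) (by
      rw [Finset.card_sdiff_of_subset hBW, hW, hB, add_mul, one_mul]; omega)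
    refine ⟨A, fun t => if t = r then B else Wt t, fun v => if v ∈ B then r else blk v,
      hA.trans Finset.sdiff_subset, hAc, fun t ht => ?_⟩
    by_cases htr : t = r
    · simp only [if_pos htr]
      refine ⟨hBW, hB, ?_, fun v hv => by rw [if_pos hv, htr]⟩
      exact Finset.disjoint_of_subset_left hA Finset.sdiff_disjoint
    · simp only [if_neg htr]
      obtain ⟨a1, a2, a3, a4⟩ := hWt t (by omega)
      refine ⟨a1.trans Finset.sdiff_subset, a2, a3, fun v hv => ?_⟩
      rw [if_neg (Finset.mem_sdiff.1 (a1 hv)).2, a4 v hv]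

theorem RW_whp (k : ℕ) : ∃ N T : ℕ, 0 < N ∧ ∀ ε : ℝ, 0 < ε → ∃ L : ℝ,
    ∀ (V : Type) [Fintype V] (p : ℝ) (m : ℕ) (W : Finset V), 0 ≤ p → p ≤ 1 → W.card = N * m →
      L ≤ p * m → prG p (fun G => ¬ RW G W k T m) ≤ ε := by
  induction k with
  | zero =>
    refine ⟨1, 2, one_pos, fun ε hε => ⟨1, fun V _ p m W h0 h1 hW hL => ?_⟩⟩
    have hm : 0 < m := by
      rcases Nat.eq_zero_or_pos m with h | h
      · subst h; norm_num at hL
      · exact h
    have : prG p (fun G => ¬ RW G W 0 2 m) ≤ prG p (fun _ : SimpleGraph V => ¬ True) :=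
      prG_le_of_imp h0 h1 fun G h => absurd (RW_zero G W m hm (by simpa using hW)) h
    rw [prG_not p (fun _ : SimpleGraph V => True), prG_true] at this
    linarith
  | succ k ih =>
    obtain ⟨N', T', hN', ih⟩ := ih
    set M := N' + 1 with hM
    set e := 3 * T' with he
    set K := (M + 1) * 4 * e * 2 ^ ((M + 1) * e) + 2 with hK
    set e' := 4 * (k + 1) * K ^ (k + 1) with he'
    set D := (M + 1) * (4 * K ^ k) * e with hD
    set T := 3 * T' + 4 * K ^ (k + 1) + D * 2 ^ ((M + 1) * e') with hT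
    have hK2 : 2 ≤ K := by omega
    refine ⟨1 + (k + 1) * N', T, by omega, fun ε hε => ?_⟩
    have hε' : 0 < ε / (4 * (k + 1)) := by positivity
    obtain ⟨L', hL'⟩ := ih _ hε'
    obtain ⟨m0, hm0⟩ := exists_pow_lt_of_lt_one hε' (by norm_num : (1 / 2 : ℝ) < 1)
    refine ⟨max (max L' D) (m0 + 1), fun V _ p m W h0 h1 hW hL => ?_⟩
    have hL1 : L' ≤ p * m := (le_max_left _ _).trans ((le_max_left _ _).trans hL)
    have hL2 : (D : ℝ) ≤ p * m := (le_max_right _ _).trans ((le_max_left _ _).trans hL)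
    have hL3 : (m0 + 1 : ℝ) ≤ p * m := (le_max_right _ _).trans hL
    have hmm : m0 + 1 ≤ m := by
      have : p * m ≤ 1 * m := mul_le_mul_of_nonneg_right h1 (by positivity)
      have : (m0 + 1 : ℝ) ≤ m := by linarith
      exact_mod_cast this
    have hm : 0 < m := by omega
    have hhalf : (1 / 2 : ℝ) ^ m ≤ ε / (4 * (k + 1)) :=
      (pow_le_pow_of_le_one (by norm_num) (by norm_num) (by omega : m0 ≤ m)).trans hm0.le
    obtain ⟨A, Wt, blk, hA, hAc, hWt⟩ := split m (N' * m) (k + 1) W (by rw [hW]; ring)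
    have s1 : prG p (fun G => ¬ RW G W (k + 1) T m) ≤
        prG p (fun G => ∃ t ∈ Finset.range (k + 1), (¬ RW G (Wt t) k T' m ∨
          ¬ Link G A (Wt t) (4 * K ^ t) (K ^ (t + 1)) e T e' m)) := by
      refine prG_le_of_imp h0 h1 fun G h => ?_
      by_contra hc
      push Not at hc
      have hlt : ∀ t ≤ k, t < k + 1 := fun t ht => by omega
      refine h (RW_step G W A Wt blk k T' T K m hm hK2 hA hAc
        (fun t ht => (hWt t (hlt t ht)).1) (fun t ht => (hWt t (hlt t ht)).2.2.1)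
        (fun t ht => (hWt t (hlt t ht)).2.2.2)
        (fun t ht => (hc t (Finset.mem_range.2 (hlt t ht))).1)
        (fun t ht => (hc t (Finset.mem_range.2 (hlt t ht))).2) (by omega) (by omega))
    refine s1.trans ((prG_exists h0 h1 _ _).trans ?_)
    have s2 : ∀ t ∈ Finset.range (k + 1), prG p (fun G => (¬ RW G (Wt t) k T' m ∨
          ¬ Link G A (Wt t) (4 * K ^ t) (K ^ (t + 1)) e T e' m)) ≤ ε / (k + 1) := by
      intro t ht
      have ht' := Finset.mem_range.1 ht
      obtain ⟨_, a2, a3, _⟩ := hWt t ht'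
      have hDt : (M + 1) * (4 * K ^ t) * e ≤ D := by
        have : K ^ t ≤ K ^ k := Nat.pow_le_pow_right (by omega) (by omega)
        exact Nat.mul_le_mul_right _ (Nat.mul_le_mul_left _ (by omega))
      have u1 := hL' V p m (Wt t) h0 h1 a2 hL1
      have u2 := link_fail h1 A (Wt t) a3 M m (4 * K ^ t) (K ^ (t + 1)) e T e' hm
        (by rw [hAc, a2, hM]; nlinarith)
        (le_trans (by exact_mod_cast hDt) hL2)
        (by
          calc (M + 1) * (4 * K ^ t) * e * 2 ^ ((M + 1) * e)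
              = K ^ t * ((M + 1) * 4 * e * 2 ^ ((M + 1) * e)) := by ring
            _ ≤ K ^ t * K := Nat.mul_le_mul_left _ (by omega)
            _ = K ^ (t + 1) := by ring)
        (le_trans (Nat.mul_le_mul_right _ hDt) (by omega))
      refine (prG_or h0 h1 _ _).trans ?_
      have : ε / (k + 1) = 4 * (ε / (4 * (k + 1))) := by field_simp
      linarith
    refine (Finset.sum_le_sum s2).trans ?_
    rw [Finset.sum_const, Finset.card_range, nsmul_eq_mul]
    push_cast
    rw [mul_div_cancel₀ _ (by positivity)]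

end Pool.Agent.P.MP_665a1e_co
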