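import Mathlib

/-!
Finite product (Bernoulli) weights on subsets of a finite set, and on simple graphs.
-/

open Finset Classical

namespace Pool.Agent.P.MP_665a1e_co

section subsets

variable {α : Type*}

/-- Probability of the event `P` for a `p`-random subset of `E`. -/
noncomputable def pr (E : Finset α) (p : ℝ) (P : Finset α → Prop) : ℝ :=
  ∑ S ∈ E.powerset, if P S then p ^ S.card * (1 - p) ^ (E.card - S.card) else 0

lemma pr_empty (p : ℝ) (P : Finset α → Prop) : pr ∅ p P = if P ∅ then 1 else 0 := by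
  simp [pr]

lemma pr_insert {E : Finset α} {a : α} (ha : a ∉ E) (p : ℝ) (P : Finset α → Prop) :
    pr (insert a E) p P = (1 - p) * pr E p P + p * pr E p (fun S => P (insert a S)) := by
  unfold pr
  rw [Finset.sum_powerset_insert ha, Finset.mul_sum, Finset.mul_sum]
  congr 1
  · refine Finset.sum_congr rfl fun S hS => ?_
    have hle : S.card ≤ E.card := Finset.card_le_card (Finset.mem_powerset.1 hS)
    rw [Finset.card_insert_of_notMem ha]
    have : E.card + 1 - S.card = (E.card - S.card) + 1 := by omega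
    rw [this]
    split_ifs
    · ring
    · ring
  · refine Finset.sum_congr rfl fun S hS => ?_
    have hS' := Finset.mem_powerset.1 hS
    have haS : a ∉ S := fun h => ha (hS' h)
    rw [Finset.card_insert_of_notMem ha, Finset.card_insert_of_notMem haS]
    have : E.card + 1 - (S.card + 1) = E.card - S.card := by omega
    rw [this]
    split_ifs
    · ring
    · ring

lemma pr_true (E : Finset α) (p : ℝ) : pr E p (fun _ => True) = 1 := by
  induction E using Finset.induction_on with
  | empty => simp [pr_empty]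
  | insert a E ha ih => rw [pr_insert ha, ih]; ring

lemma pr_le_of_imp {E : Finset α} {p : ℝ} (h0 : 0 ≤ p) (h1 : p ≤ 1) {P Q : Finset α → Prop}
    (h : ∀ S, S ⊆ E → P S → Q S) : pr E p P ≤ pr E p Q := by
  unfold pr
  refine Finset.sum_le_sum fun S hS => ?_
  have hw : 0 ≤ p ^ S.card * (1 - p) ^ (E.card - S.card) := by
    have : 0 ≤ 1 - p := by linarith
    positivity
  by_cases hP : P S
  · rw [if_pos hP, if_pos (h S (Finset.mem_powerset.1 hS) hP)]
  · rw [if_neg hP]; split_ifs
    · exact hw
    · exact le_rfl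

lemma pr_mono_p {p p' : ℝ} (h0 : 0 ≤ p) (hpp : p ≤ p') (h1 : p' ≤ 1) (E : Finset α) :
    ∀ P : Finset α → Prop, (∀ S T, S ⊆ T → P S → P T) → pr E p P ≤ pr E p' P := by
  induction E using Finset.induction_on with
  | empty => intro P _; simp [pr_empty]
  | insert a E ha ih =>
    intro P hP
    rw [pr_insert ha, pr_insert ha]
    have e1 := ih P hP
    have e2 := ih (fun S => P (insert a S))
      (fun S T hST h => hP _ _ (Finset.insert_subset_insert a hST) h)
    have e3 : pr E p' P ≤ pr E p' (fun S => P (insert a S)) :=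
      pr_le_of_imp (le_trans h0 hpp) h1 fun S _ h => hP _ _ (Finset.subset_insert a S) h
    have h1p : 0 ≤ 1 - p := by linarith
    nlinarith [mul_le_mul_of_nonneg_left e1 h1p, mul_le_mul_of_nonneg_left e2 h0,
      mul_nonneg (sub_nonneg.2 hpp) (sub_nonneg.2 e3)]

lemma pr_false (E : Finset α) (p : ℝ) : pr E p (fun _ => False) = 0 := by
  simp [pr]

lemma pr_congr {E : Finset α} {p : ℝ} {P Q : Finset α → Prop}
    (h : ∀ S, S ⊆ E → (P S ↔ Q S)) : pr E p P = pr E p Q := by
  unfold pr
  refine Finset.sum_congr rfl fun S hS => ?_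
  have := h S (Finset.mem_powerset.1 hS)
  by_cases hP : P S
  · rw [if_pos hP, if_pos (this.1 hP)]
  · rw [if_neg hP, if_neg (fun hQ => hP (this.2 hQ))]

lemma pr_disjoint (p : ℝ) (E : Finset α) :
    ∀ F : Finset α, F ⊆ E → pr E p (fun S => Disjoint S F) = (1 - p) ^ F.card := by
  induction E using Finset.induction_on with
  | empty =>
    intro F hF
    have : F = ∅ := Finset.subset_empty.1 hF
    subst this
    simp [pr_empty]
  | insert a E ha ih =>
    intro F hF
    rw [pr_insert ha]
    by_cases haF : a ∈ F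
    · have hsub : F.erase a ⊆ E := by
        intro x hx
        have hx' := Finset.mem_erase.1 hx
        rcases Finset.mem_insert.1 (hF hx'.2) with h | h
        · exact absurd h hx'.1
        · exact h
      have e1 : pr E p (fun S => Disjoint S F) = pr E p (fun S => Disjoint S (F.erase a)) := by
        refine pr_congr fun S hS => ?_
        simp only [Finset.disjoint_left, Finset.mem_erase]
        constructor
        · intro h x hx hx'; exact h hx hx'.2
        · intro h x hx hx'
          exact h hx ⟨fun hxa => ha (hS (hxa ▸ hx)), hx'⟩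
      have e2 : pr E p (fun S => Disjoint (insert a S) F) = 0 := by
        rw [← pr_false E p]
        refine pr_congr fun S _ => ?_
        simp only [iff_false, Finset.disjoint_left]
        intro h
        exact h (Finset.mem_insert_self a S) haF
      rw [e1, e2, ih _ hsub, ← Finset.card_erase_add_one haF]
      ring
    · have hsub : F ⊆ E := by
        intro x hx
        rcases Finset.mem_insert.1 (hF hx) with h | h
        · exact absurd (h ▸ hx) haF
        · exact h
      have e2 : pr E p (fun S => Disjoint (insert a S) F) = pr E p (fun S => Disjoint S F) := by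
        refine pr_congr fun S _ => ?_
        simp [Finset.disjoint_insert_left, haF]
      rw [e2, ih _ hsub]
      ring

lemma pr_superset (p : ℝ) (E : Finset α) :
    ∀ F : Finset α, F ⊆ E → pr E p (fun S => F ⊆ S) = p ^ F.card := by
  induction E using Finset.induction_on with
  | empty =>
    intro F hF
    have : F = ∅ := Finset.subset_empty.1 hF
    subst this
    simp [pr_empty]
  | insert a E ha ih =>
    intro F hF
    rw [pr_insert ha]
    by_cases haF : a ∈ F
    · have hsub : F.erase a ⊆ E := by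
        intro x hx
        have hx' := Finset.mem_erase.1 hx
        rcases Finset.mem_insert.1 (hF hx'.2) with h | h
        · exact absurd h hx'.1
        · exact h
      have e1 : pr E p (fun S => F ⊆ S) = 0 := by
        rw [← pr_false E p]
        refine pr_congr fun S hS => ?_
        simp only [iff_false]
        intro h
        exact ha (hS (h haF))
      have e2 : pr E p (fun S => F ⊆ insert a S) = pr E p (fun S => F.erase a ⊆ S) := by
        refine pr_congr fun S _ => ?_
        exact Finset.subset_insert_iff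
      rw [e1, e2, ih _ hsub, ← Finset.card_erase_add_one haF]
      ring
    · have hsub : F ⊆ E := by
        intro x hx
        rcases Finset.mem_insert.1 (hF hx) with h | h
        · exact absurd (h ▸ hx) haF
        · exact h
      have e2 : pr E p (fun S => F ⊆ insert a S) = pr E p (fun S => F ⊆ S) := by
        refine pr_congr fun S _ => ?_
        exact Finset.subset_insert_iff_of_notMem haF
      rw [e2, ih _ hsub]
      ring

end subsets

section graphs

variable {V : Type*} [Fintype V]

/-- Probability of the event `P` in the binomial random graph on `V`. -/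
noncomputable def prG (p : ℝ) (P : SimpleGraph V → Prop) : ℝ :=
  ∑ G : SimpleGraph V, if P G then
    p ^ G.edgeFinset.card * (1 - p) ^ ((Fintype.card V).choose 2 - G.edgeFinset.card) else 0

lemma prG_eq_pr (p : ℝ) (P : SimpleGraph V → Prop) :
    prG p P = pr (⊤ : SimpleGraph V).edgeFinset p
      (fun S => P (SimpleGraph.fromEdgeSet (S : Set (Sym2 V)))) := by
  unfold prG pr
  rw [SimpleGraph.card_edgeFinset_top_eq_card_choose_two]
  refine Finset.sum_bij (fun G _ => G.edgeFinset) ?_ ?_ ?_ ?_
  · intro G _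
    exact Finset.mem_powerset.2 (SimpleGraph.edgeFinset_mono le_top)
  · intro G _ G' _ h
    exact SimpleGraph.edgeFinset_inj.1 h
  · intro S hS
    refine ⟨SimpleGraph.fromEdgeSet (S : Set (Sym2 V)), Finset.mem_univ _, ?_⟩
    ext e
    have hS' := Finset.mem_powerset.1 hS
    simp only [SimpleGraph.mem_edgeFinset, SimpleGraph.edgeSet_fromEdgeSet, Set.mem_sdiff,
      Finset.mem_coe]
    constructor
    · exact fun h => h.1
    · intro h
      refine ⟨h, ?_⟩
      have := hS' h
      simpa using this
  · intro G _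
    simp

lemma prG_true (p : ℝ) : prG p (fun _ : SimpleGraph V => True) = 1 := by
  rw [prG_eq_pr, pr_true]

lemma prG_le_of_imp {p : ℝ} (h0 : 0 ≤ p) (h1 : p ≤ 1) {P Q : SimpleGraph V → Prop}
    (h : ∀ G, P G → Q G) : prG p P ≤ prG p Q := by
  rw [prG_eq_pr, prG_eq_pr]
  exact pr_le_of_imp h0 h1 fun S _ hP => h _ hP

lemma prG_le_one {p : ℝ} (h0 : 0 ≤ p) (h1 : p ≤ 1) (P : SimpleGraph V → Prop) :
    prG p P ≤ 1 := by
  rw [← prG_true (V := V) p]
  exact prG_le_of_imp h0 h1 fun _ _ => trivial

lemma prG_not (p : ℝ) (P : SimpleGraph V → Prop) :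
    prG p (fun G => ¬ P G) = 1 - prG p P := by
  rw [← prG_true (V := V) p]
  unfold prG
  rw [← Finset.sum_sub_distrib]
  refine Finset.sum_congr rfl fun G _ => ?_
  by_cases h : P G <;> simp [h]

lemma prG_exists {p : ℝ} (h0 : 0 ≤ p) (h1 : p ≤ 1) {ι : Type*} (I : Finset ι)
    (P : ι → SimpleGraph V → Prop) :
    prG p (fun G => ∃ i ∈ I, P i G) ≤ ∑ i ∈ I, prG p (P i) := by
  unfold prG
  rw [Finset.sum_comm]
  refine Finset.sum_le_sum fun G _ => ?_
  have hw : 0 ≤ p ^ G.edgeFinset.card *
      (1 - p) ^ ((Fintype.card V).choose 2 - G.edgeFinset.card) := by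
    have : 0 ≤ 1 - p := by linarith
    positivity
  have hn : ∀ i ∈ I, 0 ≤ (if P i G then p ^ G.edgeFinset.card *
      (1 - p) ^ ((Fintype.card V).choose 2 - G.edgeFinset.card) else 0) := by
    intro i _
    split_ifs
    · exact hw
    · exact le_rfl
  split_ifs with h
  · obtain ⟨i, hi, hP⟩ := h
    have := Finset.single_le_sum hn hi
    rwa [if_pos hP] at this
  · exact Finset.sum_nonneg hn

lemma prG_or {p : ℝ} (h0 : 0 ≤ p) (h1 : p ≤ 1) (P Q : SimpleGraph V → Prop) :
    prG p (fun G => P G ∨ Q G) ≤ prG p P + prG p Q := by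
  unfold prG
  rw [← Finset.sum_add_distrib]
  refine Finset.sum_le_sum fun G _ => ?_
  have hw : 0 ≤ p ^ G.edgeFinset.card *
      (1 - p) ^ ((Fintype.card V).choose 2 - G.edgeFinset.card) := by
    have : 0 ≤ 1 - p := by linarith
    positivity
  by_cases hP : P G <;> by_cases hQ : Q G <;> simp [hP, hQ, hw]

lemma prG_mono_p {p p' : ℝ} (h0 : 0 ≤ p) (hpp : p ≤ p') (h1 : p' ≤ 1)
    (P : SimpleGraph V → Prop) (hP : ∀ G G', G ≤ G' → P G → P G') : prG p P ≤ prG p' P := by
  rw [prG_eq_pr, prG_eq_pr]
  refine pr_mono_p h0 hpp h1 _ _ fun S T hST h => hP _ _ ?_ h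
  exact SimpleGraph.fromEdgeSet_mono (by exact_mod_cast hST)

lemma prG_noedge {p : ℝ} (h0 : 0 ≤ p) (h1 : p ≤ 1) (X Y : Finset V) (hXY : Disjoint X Y) :
    prG p (fun G => ∀ x ∈ X, ∀ y ∈ Y, ¬ G.Adj x y) ≤ (1 - p) ^ (X.card * Y.card) := by
  rw [prG_eq_pr]
  set F : Finset (Sym2 V) := (X ×ˢ Y).image (fun xy => s(xy.1, xy.2)) with hF
  have hne : ∀ x ∈ X, ∀ y ∈ Y, x ≠ y := fun x hx y hy hxy =>
    Finset.disjoint_left.1 hXY hx (hxy ▸ hy)
  have hcard : F.card = X.card * Y.card := by
    rw [hF, Finset.card_image_of_injOn, Finset.card_product]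
    rintro ⟨x, y⟩ hxy ⟨x', y'⟩ hxy' h
    simp only [Finset.coe_product, Set.mem_prod, Finset.mem_coe] at hxy hxy'
    rcases Sym2.eq_iff.1 h with h | h
    · exact Prod.ext h.1 h.2
    · exact absurd h.1 (hne _ hxy.1 _ hxy'.2)
  have hsub : F ⊆ (⊤ : SimpleGraph V).edgeFinset := by
    intro e he
    obtain ⟨⟨x, y⟩, hxy, rfl⟩ := Finset.mem_image.1 he
    have := Finset.mem_product.1 hxy
    simpa using hne _ this.1 _ this.2
  rw [← hcard, ← pr_disjoint p _ F hsub]
  refine pr_le_of_imp h0 h1 fun S _ h => ?_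
  rw [Finset.disjoint_right]
  intro e he heS
  obtain ⟨⟨x, y⟩, hxy, rfl⟩ := Finset.mem_image.1 he
  have := Finset.mem_product.1 hxy
  refine h x this.1 y this.2 ?_
  rw [SimpleGraph.fromEdgeSet_adj]
  exact ⟨heS, hne _ this.1 _ this.2⟩

lemma prG_dom {p : ℝ} (h0 : 0 ≤ p) (h1 : p ≤ 1) (X Z : Finset V) (hXZ : Disjoint X Z) :
    prG p (fun G => ∀ x ∈ X, ∃ z ∈ Z, G.Adj x z) ≤ (Z.card * p) ^ X.card := by
  have hne : ∀ x ∈ X, ∀ z ∈ Z, x ≠ z := fun x hx y hy hxy =>
    Finset.disjoint_left.1 hXZ hx (hxy ▸ hy)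
  have step1 : prG p (fun G => ∀ x ∈ X, ∃ z ∈ Z, G.Adj x z) ≤
      prG p (fun G : SimpleGraph V => ∃ φ ∈ Fintype.piFinset (fun _ : X => Z), ∀ x : X, G.Adj x.1 (φ x)) := by
    refine prG_le_of_imp h0 h1 fun G h => ?_
    choose φ hφ using h
    refine ⟨fun x => φ x.1 x.2, ?_, fun x => (hφ x.1 x.2).2⟩
    exact Fintype.mem_piFinset.2 fun x => (hφ x.1 x.2).1
  refine step1.trans ((prG_exists h0 h1 _ _).trans ?_)
  have step2 : ∀ φ ∈ Fintype.piFinset (fun _ : X => Z),
      prG p (fun G : SimpleGraph V => ∀ x : X, G.Adj x.1 (φ x)) ≤ p ^ X.card := by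
    intro φ hφ
    have hφ' := Fintype.mem_piFinset.1 hφ
    rw [prG_eq_pr]
    set F : Finset (Sym2 V) := (Finset.univ : Finset X).image (fun x : X => s(x.1, φ x)) with hF
    have hcard : F.card = X.card := by
      rw [hF, Finset.card_image_of_injective]
      · simp
      · intro x x' h
        rcases Sym2.eq_iff.1 h with h | h
        · exact Subtype.ext h.1
        · exact absurd h.1 (hne _ x.2 _ (hφ' x'))
    have hsub : F ⊆ (⊤ : SimpleGraph V).edgeFinset := by
      intro e he
      obtain ⟨x, _, rfl⟩ := Finset.mem_image.1 he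
      simpa using hne _ x.2 _ (hφ' x)
    rw [← hcard, ← pr_superset p _ F hsub]
    refine pr_le_of_imp h0 h1 fun S _ h => ?_
    intro e he
    obtain ⟨x, _, rfl⟩ := Finset.mem_image.1 he
    have := h x
    rw [SimpleGraph.fromEdgeSet_adj] at this
    exact this.1
  refine (Finset.sum_le_sum step2).trans ?_
  rw [Finset.sum_const, Fintype.card_piFinset]
  simp [mul_pow]

end graphs

end Pool.Agent.P.MP_665a1e_co
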